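import Pool.Agent.H16.Lib.R63.N399.TB.Sep4
import Pool.Agent.H16.Lib.S8.TH169.P5.GIRTH

set_option autoImplicit false
set_option linter.unusedSectionVars false

/-!
# Summary: the structure of a minimal counterexample
-/

namespace Pool.Agent.N399.TB

open Finset Pool.Agent.TH462.T4 Pool.Agent.TH676.T4 Pool.Agent.TH497.T4

variable {V E : Type} [Fintype V] [DecidableEq V] [Fintype E] [DecidableEq E]
variable {src dst : E → V}

/-- separations of order at most four -/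
theorem sep_le (hM : MinCx src dst) (hn : ∀ v, Nis src dst v) {Z I : Finset V}
    (hc : Closed src dst Z I) (hd : Disjoint I Z) (hZ : Z.card ≤ 4) :
    I.card ≤ Z.card - 2 ∨ ((I ∪ Z)ᶜ).card ≤ Z.card - 2 := by
  by_contra hno
  push Not at hno
  obtain ⟨h1, h2⟩ := hno
  have hO : ∀ p ∈ (I ∪ Z)ᶜ, p ∉ I ∧ p ∉ Z := by
    intro p hp
    rw [mem_compl, mem_union, not_or] at hp
    exact hp
  by_cases h4 : Z.card = 4
  · rw [h4] at h1 h2
    obtain ⟨x1, m1, x2, m2, x3, m3, n12, n13, n23⟩ := two_lt_card.mp (show 2 < I.card from h1)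
    obtain ⟨y1, k1, y2, k2, y3, k3, l12, l13, l23⟩ :=
      two_lt_card.mp (show 2 < ((I ∪ Z)ᶜ).card from h2)
    exact sep4 hM hc hd hZ m1 m2 m3 n12 n13 n23 (hn _) (hn _) (hn _) (hO _ k1).1 (hO _ k1).2
      (hO _ k2).1 (hO _ k2).2 (hO _ k3).1 (hO _ k3).2 l12 l13 l23 (hn _) (hn _) (hn _)
  by_cases h3 : Z.card = 3
  · rw [h3] at h1 h2
    obtain ⟨x1, m1, x2, m2, n12⟩ := one_lt_card.mp (show 1 < I.card from h1)
    obtain ⟨y1, k1, y2, k2, l12⟩ := one_lt_card.mp (show 1 < ((I ∪ Z)ᶜ).card from h2)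
    exact sep3 hM hc (by omega) m1 (hn _) m2 (hn _) n12 (hO _ k1).1 (hO _ k1).2 (hn _)
      (hO _ k2).1 (hO _ k2).2 (hn _) l12
  · have h5 : Z.card ≤ 2 := by omega
    obtain ⟨x, hx⟩ := card_pos.mp (show 0 < I.card by omega)
    obtain ⟨y, hy⟩ := card_pos.mp (show 0 < ((I ∪ Z)ᶜ).card by omega)
    exact sep2 hM hc h5 hx (hn _) (hO _ hy).1 (hO _ hy).2 (hn _)

/-- edge cuts -/
theorem cut_le (hM : MinCx src dst) (hn : ∀ v, Nis src dst v) {Y : Finset V}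
    (h1 : 3 ≤ Y.card) (h2 : 3 ≤ (Yᶜ).card) : 5 ≤ (crs src dst Y).card := by
  obtain ⟨x1, m1, x2, m2, x3, m3, n12, n13, n23⟩ := two_lt_card.mp (show 2 < Y.card from h1)
  obtain ⟨y1, k1, y2, k2, y3, k3, l12, l13, l23⟩ := two_lt_card.mp (show 2 < (Yᶜ).card from h2)
  exact cut5 hM m1 m2 m3 n12 n13 n23 (hn _) (hn _) (hn _) (mem_compl.mp k1) (mem_compl.mp k2)
    (mem_compl.mp k3) l12 l13 l23 (hn _) (hn _) (hn _)

end Pool.Agent.N399.TB
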