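import Pool.Agent.H16.Lib.S8.TH497.T4.K3b

set_option autoImplicit false
set_option linter.unusedSectionVars false
set_option synthInstance.maxHeartbeats 400000
set_option synthInstance.maxSize 2048

/-! # Kempe changes on one side of an edge cut -/

namespace Pool.Agent.N399.TB

open Finset Pool.Agent.TH462.T4 Pool.Agent.TH676.T4 Pool.Agent.TH497.T4

variable {V E : Type} [Fintype V] [DecidableEq V] [Fintype E] [DecidableEq E]

theorem sum_bd_crs (src dst : E → V) (f : E → K4) (W : Finset V) :
    ∑ v ∈ W, bd src dst f v = ∑ e ∈ crs src dst W, f e := by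
  unfold bd
  rw [sum_comm]
  unfold crs
  rw [sum_filter]
  refine sum_congr rfl fun e _ => ?_
  rw [sum_add_distrib, sum_ite_eq, sum_ite_eq]
  by_cases h1 : src e ∈ W <;> by_cases h2 : dst e ∈ W <;> simp [h1, h2, K4.add_self]

/-- the end in `S` of an edge that leaves `S` -/
def xe (src dst : E → V) (S : Finset V) (e : E) : V := if src e ∈ S then src e else dst e

theorem xe_mem {src dst : E → V} {S : Finset V} {e : E} (he : e ∈ crs src dst S) :
    xe src dst S e ∈ S := by
  rw [mem_crs] at he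
  unfold xe
  split_ifs with h
  · exact h
  · tauto

theorem bd_single_xe {src dst : E → V} {S : Finset V} {e : E} (he : e ∈ crs src dst S) (c : K4)
    {x : V} (hx : x ∈ S) :
    bd src dst (Pi.single e c) x = if x = xe src dst S e then c else 0 := by
  rw [bd_single]
  rw [mem_crs] at he
  unfold xe
  by_cases h : src e ∈ S
  · have h2 : dst e ≠ x := fun h3 => he ⟨fun _ => h3 ▸ hx, fun _ => h⟩
    rw [if_pos h, if_neg h2, add_zero]
    exact if_congr eq_comm rfl rfl
  · have h2 : src e ≠ x := fun h3 => h (h3 ▸ hx)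
    rw [if_neg h, if_neg h2, zero_add]
    exact if_congr eq_comm rfl rfl

theorem bd_zero (src dst : E → V) (x : V) : bd src dst (0 : E → K4) x = 0 := by
  unfold bd; simp

/-- `u` and `v` are joined in `S` by a path that avoids the value `c` -/
def Rl (src dst : E → V) (S : Finset V) (f : E → K4) (c : K4) (u v : V) : Prop :=
  ∃ t : E → K4, (∀ e, t e = 0 ∨ (t e = c ∧ f e ≠ c ∧ src e ∈ S ∧ dst e ∈ S)) ∧
    ∀ x, bd src dst t x = (if x = u then c else 0) + (if x = v then c else 0)

theorem Rl.refl {src dst : E → V} (S : Finset V) (f : E → K4) (c : K4) (u : V) :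
    Rl src dst S f c u u :=
  ⟨0, fun _ => Or.inl rfl, fun x => by rw [bd_zero, K4.add_self]⟩

theorem Rl.symm {src dst : E → V} {S : Finset V} {f : E → K4} {c : K4} {u v : V}
    (h : Rl src dst S f c u v) : Rl src dst S f c v u := by
  obtain ⟨t, h1, h2⟩ := h
  exact ⟨t, h1, fun x => by rw [h2 x, add_comm]⟩

theorem Rl.trans {src dst : E → V} {S : Finset V} {f : E → K4} {c : K4} {u v w : V}
    (h : Rl src dst S f c u v) (h' : Rl src dst S f c v w) : Rl src dst S f c u w := by
  obtain ⟨t, h1, h2⟩ := h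
  obtain ⟨t', h1', h2'⟩ := h'
  refine ⟨t + t', fun e => ?_, fun x => ?_⟩
  · rw [Pi.add_apply]
    rcases h1 e with h3 | h3 <;> rcases h1' e with h4 | h4
    · left; rw [h3, h4, add_zero]
    · right; rw [h3, h4.1, zero_add]; exact ⟨rfl, h4.2⟩
    · right; rw [h4, h3.1, add_zero]; exact ⟨rfl, h3.2⟩
    · left; rw [h3.1, h4.1, K4.add_self]
  · rw [bd_add, h2, h2']
    have hz : ∀ A B C : K4, A + B + (B + C) = A + C := by decide
    exact hz _ _ _

theorem Rl.edge {src dst : E → V} {S : Finset V} {f : E → K4} {c : K4} {e : E}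
    (h1 : src e ∈ S) (h2 : dst e ∈ S) (h3 : f e ≠ c) : Rl src dst S f c (src e) (dst e) := by
  refine ⟨Pi.single e c, fun d => ?_, fun x => ?_⟩
  · by_cases h : d = e
    · subst h; right; rw [Pi.single_eq_same]; exact ⟨rfl, h3, h1, h2⟩
    · left; rw [Pi.single_eq_of_ne h]
  · rw [bd_single]
    congr 1
    · exact if_congr eq_comm rfl rfl
    · exact if_congr eq_comm rfl rfl

/-- the component of `u` -/
noncomputable def Kc (src dst : E → V) (S : Finset V) (f : E → K4) (c : K4) (u : V) : Finset V :=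
  @Finset.filter V (fun v => Rl src dst S f c u v) (fun _ => Classical.propDecidable _) S

theorem mem_Kc {src dst : E → V} {S : Finset V} {f : E → K4} {c : K4} {u v : V} :
    v ∈ Kc src dst S f c u ↔ v ∈ S ∧ Rl src dst S f c u v := by
  unfold Kc; simp only [Finset.mem_filter]

theorem Kc_edge {src dst : E → V} {S : Finset V} {f : E → K4} {c : K4} {u : V} {e : E}
    (h1 : src e ∈ S) (h2 : dst e ∈ S) (h3 : f e ≠ c) :
    src e ∈ Kc src dst S f c u ↔ dst e ∈ Kc src dst S f c u := by
  rw [mem_Kc, mem_Kc]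
  constructor
  · rintro ⟨_, h⟩; exact ⟨h2, h.trans (Rl.edge h1 h2 h3)⟩
  · rintro ⟨_, h⟩; exact ⟨h1, h.trans (Rl.edge h1 h2 h3).symm⟩

theorem Kc_conn {src dst : E → V} {S : Finset V} {f : E → K4} {c : K4} (hc : c ≠ 0) {u : V}
    (hu : u ∈ S) : Conn src dst (Kc src dst S f c u) := by
  have key : ∀ Y : Finset V, (∀ e, src e ∈ Kc src dst S f c u → dst e ∈ Kc src dst S f c u →
      (src e ∈ Y ↔ dst e ∈ Y)) → ∀ y ∈ Kc src dst S f c u, (y ∈ Y ↔ u ∈ Y) := by
    intro Y hY y hy
    by_contra hne
    have huK : u ∈ Kc src dst S f c u := mem_Kc.mpr ⟨hu, Rl.refl S f c u⟩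
    obtain ⟨_, t, t1, t2⟩ := mem_Kc.mp hy
    have hyu : y ≠ u := by rintro rfl; exact hne Iff.rfl
    have s1 : ∑ v ∈ Kc src dst S f c u ∩ Y, bd src dst t v = c := by
      have : ∀ v ∈ Kc src dst S f c u ∩ Y, bd src dst t v =
          (if v = u then c else 0) + (if v = y then c else 0) := fun v _ => t2 v
      rw [sum_congr rfl this, sum_add_distrib, sum_ite_eq', sum_ite_eq']
      by_cases h1 : u ∈ Y
      · have h2 : y ∉ Y := fun h => hne ⟨fun _ => h1, fun _ => h⟩
        simp [h1, h2, huK]
      · have h2 : y ∈ Y := by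
          by_contra h
          exact hne ⟨fun h3 => absurd h3 h, fun h3 => absurd h3 h1⟩
        simp [h1, h2, hy]
    rw [sum_bd_crs] at s1
    apply hc
    rw [← s1]
    refine sum_eq_zero fun e he => ?_
    rcases t1 e with h | ⟨_, h2, h3, h4⟩
    · exact h
    · exfalso
      rw [mem_crs, mem_inter, mem_inter] at he
      have h5 := Kc_edge (u := u) h3 h4 h2
      by_cases h6 : src e ∈ Kc src dst S f c u
      · have h7 := h5.mp h6
        have h8 := hY e h6 h7
        tauto
      · have h7 : dst e ∉ Kc src dst S f c u := fun h => h6 (h5.mpr h)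
        tauto
  intro Y hY y hy y' hy'
  exact (key Y hY y hy).trans (key Y hY y' hy').symm

theorem chi (c : K4) (hc : c ≠ 0) :
    ∃ χ : K4 →+ ZMod 2, χ c = 0 ∧ ∀ x, x ≠ 0 → x ≠ c → χ x = 1 := by
  have h1 : ∀ c : K4, c ≠ 0 → c = (1, 0) ∨ c = (0, 1) ∨ c = (1, 1) := by decide
  rcases h1 c hc with rfl | rfl | rfl
  · refine ⟨AddMonoidHom.snd _ _, rfl, ?_⟩
    simp only [AddMonoidHom.coe_snd]
    decide
  · refine ⟨AddMonoidHom.fst _ _, rfl, ?_⟩
    simp only [AddMonoidHom.coe_fst]
    decide
  · refine ⟨AddMonoidHom.fst _ _ + AddMonoidHom.snd _ _, rfl, ?_⟩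
    simp only [AddMonoidHom.add_apply, AddMonoidHom.coe_fst, AddMonoidHom.coe_snd]
    decide

/-- flows on the side `S` -/
def Sf (src dst : E → V) (S : Finset V) (f : E → K4) : Prop :=
  (∀ v ∈ S, bd src dst f v = 0) ∧ ∀ e, (src e ∈ S ∨ dst e ∈ S) → f e ≠ 0

theorem Sf.crs_ne {src dst : E → V} {S : Finset V} {f : E → K4} (h : Sf src dst S f) {e : E}
    (he : e ∈ crs src dst S) : f e ≠ 0 := by
  refine h.2 e ?_
  rw [mem_crs] at he
  tauto

/-- a component has an even number of ends -/
theorem Kc_even {src dst : E → V} {S : Finset V} {f : E → K4} {c : K4} (hc : c ≠ 0)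
    (hf : Sf src dst S f) (hcut : ∀ e ∈ crs src dst S, f e ≠ c) (u : V) :
    Even ((crs src dst S).filter (fun e => xe src dst S e ∈ Kc src dst S f c u)).card := by
  obtain ⟨χ, hχ, hχ1⟩ := chi c hc
  set K := Kc src dst S f c u with hK
  have hKS : ∀ v ∈ K, v ∈ S := fun v hv => (mem_Kc.mp hv).1
  have h1 : ∑ e ∈ crs src dst K, f e = 0 := by
    rw [← sum_bd_crs]
    exact sum_eq_zero fun v hv => hf.1 v (hKS v hv)
  have h2 : ∑ e ∈ crs src dst K, χ (f e) = 0 := by
    rw [← map_sum, h1, map_zero]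
  have h3 : ∑ e ∈ (crs src dst S).filter (fun e => xe src dst S e ∈ K), χ (f e) = 0 := by
    rw [← h2]
    refine sum_subset ?_ ?_
    · intro e he
      rw [mem_filter, mem_crs] at he
      obtain ⟨h4, h5⟩ := he
      rw [mem_crs]
      unfold xe at h5
      split_ifs at h5 with h6
      · have h7 : dst e ∉ S := by tauto
        have h8 : dst e ∉ K := fun h => h7 (hKS _ h)
        tauto
      · have h8 : src e ∉ K := fun h => h6 (hKS _ h)
        tauto
    · intro e he hne
      rw [mem_filter, mem_crs] at hne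
      rw [mem_crs] at he
      by_cases h4 : src e ∈ S
      · by_cases h5 : dst e ∈ S
        · by_cases h6 : f e = c
          · rw [h6]; exact hχ
          · exact absurd (Kc_edge (u := u) h4 h5 h6) he
        · exfalso
          apply hne
          refine ⟨by tauto, ?_⟩
          unfold xe
          rw [if_pos h4]
          have h8 : dst e ∉ K := fun h => h5 (hKS _ h)
          tauto
      · have h8 : src e ∉ K := fun h => h4 (hKS _ h)
        have h9 : dst e ∈ K := by tauto
        exfalso
        apply hne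
        refine ⟨?_, ?_⟩
        · have := hKS _ h9
          tauto
        · unfold xe
          rw [if_neg h4]; exact h9
  have h4 : ∑ e ∈ (crs src dst S).filter (fun e => xe src dst S e ∈ K), χ (f e) =
      (((crs src dst S).filter (fun e => xe src dst S e ∈ K)).card : ZMod 2) := by
    rw [card_eq_sum_ones, Nat.cast_sum]
    refine sum_congr rfl fun e he => ?_
    rw [mem_filter] at he
    rw [hχ1 _ (hf.crs_ne he.1) (hcut e he.1), Nat.cast_one]
  rw [h4] at h3
  exact (ZMod.natCast_eq_zero_iff_even).mp h3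

/-- a Kempe change -/
theorem swap {src dst : E → V} {S : Finset V} {f : E → K4} {c : K4}
    (hf : Sf src dst S f) {e e' : E} (he : e ∈ crs src dst S) (he' : e' ∈ crs src dst S)
    (hne : e ≠ e') (h1 : f e ≠ c) (h2 : f e' ≠ c)
    (hr : Rl src dst S f c (xe src dst S e) (xe src dst S e')) :
    ∃ g, Sf src dst S g ∧ g e = f e + c ∧ g e' = f e' + c ∧
      ∀ d ∈ crs src dst S, d ≠ e → d ≠ e' → g d = f d := by
  obtain ⟨t, t1, t2⟩ := hr
  have hins : ∀ d ∈ crs src dst S, t d = 0 := by
    intro d hd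
    rcases t1 d with h | ⟨_, _, h3, h4⟩
    · exact h
    · rw [mem_crs] at hd; tauto
  have hneq : ∀ x y : K4, x ≠ y → x + y ≠ 0 := by decide
  refine ⟨f + t + (Pi.single e c + Pi.single e' c), ⟨fun v hv => ?_, fun d hd => ?_⟩, ?_, ?_, ?_⟩
  · rw [bd_add, bd_add, bd_add, hf.1 v hv, t2, bd_single_xe he c hv, bd_single_xe he' c hv]
    have hz : ∀ A B : K4, 0 + (A + B) + (A + B) = 0 := by decide
    exact hz _ _
  · simp only [Pi.add_apply]
    by_cases h3 : d = e
    · subst h3
      rw [hins d he, Pi.single_eq_same, Pi.single_eq_of_ne hne, add_zero, add_zero]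
      exact hneq _ _ h1
    · by_cases h4 : d = e'
      · subst h4
        rw [hins d he', Pi.single_eq_same, Pi.single_eq_of_ne h3, add_zero, zero_add]
        exact hneq _ _ h2
      · rw [Pi.single_eq_of_ne h3, Pi.single_eq_of_ne h4, add_zero, add_zero]
        rcases t1 d with h | ⟨h, h5, _, _⟩
        · rw [h, add_zero]; exact hf.2 d hd
        · rw [h]; exact hneq _ _ h5
  · simp only [Pi.add_apply]
    rw [hins e he, Pi.single_eq_same, Pi.single_eq_of_ne hne, add_zero, add_zero]
  · simp only [Pi.add_apply]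
    rw [hins e' he', Pi.single_eq_same, Pi.single_eq_of_ne hne.symm, add_zero, zero_add]
  · intro d hd h3 h4
    simp only [Pi.add_apply]
    rw [hins d hd, Pi.single_eq_of_ne h3, Pi.single_eq_of_ne h4, add_zero, add_zero, add_zero]

end Pool.Agent.N399.TB
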