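import Pool.Agent.H16.Lib.R63.N399.TB.Claw
import Pool.Agent.H16.Lib.R63.N399.TB.Cut5
import Pool.Agent.H16.Lib.S8.TH169.P5.GIRTH

set_option autoImplicit false
set_option linter.unusedSectionVars false
set_option synthInstance.maxHeartbeats 400000
set_option synthInstance.maxSize 2048

/-! # Vertex cuts with four vertices in a minimal counterexample -/

namespace Pool.Agent.N399.TB

open Finset Pool.Agent.TH462.T4 Pool.Agent.TH676.T4 Pool.Agent.TH497.T4

variable {V E : Type} [Fintype V] [DecidableEq V] [Fintype E] [DecidableEq E]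
variable {src dst : E → V}

/-- replacing the other side by a claw does not create a bridge -/
theorem nobr (hM : MinCx src dst) {Z I : Finset V} (hc : Closed src dst Z I) (hd : Disjoint I Z)
    {l : V} (hl : l ∈ Z) {A : Finset E} (hA1 : tch src dst I ⊆ A)
    (hA2 : ∀ e ∈ A, e ∈ tch src dst I ∨ (src e ∈ Z ∧ dst e ∈ Z))
    (h2 : 2 ≤ (crs src dst {l} ∩ A).card) {y : V} (hy : y ∉ I) (hyZ : y ∉ Z) (ny : Nis src dst y)
    (Y : Finset V) (hY : ∀ z ∈ Z.erase l, z ∉ Y) : (crs src dst Y ∩ A).card ≠ 1 := by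
  intro hcard
  obtain ⟨g, hg⟩ := card_eq_one.mp hcard
  have hone : ∀ e, e ∈ crs src dst Y → e ∈ A → e = g := by
    intro e h3 h4
    have : e ∈ crs src dst Y ∩ A := mem_inter.mpr ⟨h3, h4⟩
    rw [hg] at this
    exact mem_singleton.mp this
  have hZY : ∀ z ∈ Z, z ∈ Y → z = l := by
    intro z hz hzY
    by_contra hne
    exact hY z (mem_erase.mpr ⟨hne, hz⟩) hzY
  have hIZ : ∀ p ∈ I, p ∉ Z := fun p hp => disjoint_left.mp hd hp
  by_cases hlY : l ∈ Y
  · by_cases hW : ∃ x, x ∈ Y ∧ x ∈ I ∧ Nis src dst x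
    · obtain ⟨x, hxY, hxI, nx⟩ := hW
      -- the other end of `g`
      have hgA : g ∈ A := by
        have : g ∈ crs src dst Y ∩ A := by rw [hg]; exact mem_singleton_self _
        exact (mem_inter.mp this).2
      have hgIZ : (src g ∈ I ∨ src g ∈ Z) ∧ (dst g ∈ I ∨ dst g ∈ Z) := by
        rcases hA2 g hgA with h3 | ⟨h3, h4⟩
        · have := hc g (mem_tch.mp h3)
          rw [mem_union, mem_union] at this
          exact this
        · exact ⟨Or.inr h3, Or.inr h4⟩
      refine sep2 hM (Z := {l, if src g ∈ Y then dst g else src g}) (I := Y ∩ I) ?_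
        (card_le_two) (mem_inter.mpr ⟨hxY, hxI⟩) nx (fun h3 => hy (mem_inter.mp h3).2) ?_ ny
      · intro e he
        rw [mem_inter, mem_inter] at he
        have heI : src e ∈ I ∨ dst e ∈ I := by tauto
        have heA : e ∈ A := hA1 (mem_tch.mpr heI)
        have h3 := hc e heI
        rw [mem_union, mem_union] at h3
        simp only [mem_union, mem_inter, mem_insert, mem_singleton]
        by_cases hcr : e ∈ crs src dst Y
        · have h4 := hone e hcr heA
          subst h4
          rw [mem_crs] at hcr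
          by_cases h5 : src e ∈ Y
          · have h6 : dst e ∉ Y := by tauto
            rw [if_pos h5]
            have h7 : src e ∈ I := by tauto
            exact ⟨Or.inl ⟨h5, h7⟩, Or.inr (Or.inr rfl)⟩
          · rw [if_neg h5]
            have h7 : dst e ∈ Y ∧ dst e ∈ I := by tauto
            exact ⟨Or.inr (Or.inr rfl), Or.inl h7⟩
        · rw [mem_crs, not_not] at hcr
          have h5 : src e ∈ Y ∧ dst e ∈ Y := by tauto
          refine ⟨?_, ?_⟩
          · rcases h3.1 with h6 | h6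
            · exact Or.inl ⟨h5.1, h6⟩
            · exact Or.inr (Or.inl (hZY _ h6 h5.1))
          · rcases h3.2 with h6 | h6
            · exact Or.inl ⟨h5.2, h6⟩
            · exact Or.inr (Or.inl (hZY _ h6 h5.2))
      · rw [mem_insert, mem_singleton, not_or]
        refine ⟨fun h3 => hyZ (h3 ▸ hl), ?_⟩
        split_ifs with h5
        · intro h6; rw [h6] at hy hyZ; tauto
        · intro h6; rw [h6] at hy hyZ; tauto
    · push Not at hW
      have hsub : crs src dst {l} ∩ A ⊆ crs src dst Y ∩ A := by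
        intro e he
        rw [mem_inter] at he ⊢
        refine ⟨?_, he.2⟩
        have he1 := he.1
        rw [mem_crs, mem_singleton, mem_singleton] at he1
        rw [mem_crs]
        have hne : src e ≠ dst e := fun h5 => he1 (by rw [h5])
        have hIZe : (src e ∈ I ∨ src e ∈ Z) ∧ (dst e ∈ I ∨ dst e ∈ Z) := by
          rcases hA2 e he.2 with h3 | ⟨h3, h4⟩
          · have := hc e (mem_tch.mp h3)
            rw [mem_union, mem_union] at this
            exact this
          · exact ⟨Or.inr h3, Or.inr h4⟩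
        by_cases h5 : src e = l
        · have h6 : dst e ≠ l := by tauto
          have h7 : src e ∈ Y := h5 ▸ hlY
          have h8 : dst e ∉ Y := by
            intro h9
            rcases hIZe.2 with h10 | h10
            · exact hW _ h9 h10 ⟨e, hne, Or.inr rfl⟩
            · exact h6 (hZY _ h10 h9)
          tauto
        · have h6 : dst e = l := by tauto
          have h7 : dst e ∈ Y := h6 ▸ hlY
          have h8 : src e ∉ Y := by
            intro h9
            rcases hIZe.1 with h10 | h10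
            · exact hW _ h9 h10 ⟨e, hne, Or.inl rfl⟩
            · exact h5 (hZY _ h10 h9)
          tauto
      have := card_le_card hsub
      omega
  · have hYZ : ∀ z ∈ Z, z ∉ Y := fun z hz hzY => hlY (hZY z hz hzY ▸ hzY)
    have h3 : crs src dst (Y ∩ I) = crs src dst Y ∩ A := by
      rw [hc.yin Y hYZ]
      ext e
      rw [mem_inter, mem_inter]
      constructor
      · rintro ⟨h4, h5⟩; exact ⟨h4, hA1 h5⟩
      · rintro ⟨h4, h5⟩
        refine ⟨h4, ?_⟩
        rcases hA2 e h5 with h6 | ⟨h6, h7⟩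
        · exact h6
        · exfalso
          rw [mem_crs] at h4
          have := hYZ _ h6
          have := hYZ _ h7
          tauto
    have h4 := hM.br (Y ∩ I) (disjoint_empty_right _)
    rw [sdiff_empty, h3] at h4
    exact h4 hcard

/-- a component attached to all four vertices of the cut -/
theorem big_comp (hM : MinCx src dst) {Z I : Finset V} (hc : Closed src dst Z I)
    (hd : Disjoint I Z) (hZ : Z.card = 4) {x1 x2 y1 y2 : V} (h1 : x1 ∈ I) (h2 : x2 ∈ I)
    (h12 : x1 ≠ x2) (n1 : Nis src dst x1) (n2 : Nis src dst x2) (g1 : y1 ∉ I) (g1' : y1 ∉ Z)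
    (g2 : y2 ∉ I) (g2' : y2 ∉ Z) (g12 : y1 ≠ y2) (m1 : Nis src dst y1) (m2 : Nis src dst y2) :
    ∃ K ⊆ I, Conn src dst K ∧ ∀ z ∈ Z, ∃ e, Att src dst K z e := by
  by_contra hno
  push Not at hno
  -- every vertex has three neighbours in the cut
  have key : ∀ x ∈ I, Nis src dst x → ∃ z ∈ Z, ∀ c ∈ Z.erase z, ∃ e, JV src dst e x c := by
    intro x hx nx
    obtain ⟨K, hKI, hxK, hK1, hK2, hK3⟩ := comp (src := src) (dst := dst) I hx
    have hKc : Conn src dst K := fun Y hY a ha b hb => (hK3 Y hY a ha).trans (hK3 Y hY b hb).symm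
    obtain ⟨z, hz, hz2⟩ := hno K hKI hKc
    have hcl : Closed src dst (Z.erase z) K :=
      hc.attach hKI hK1 hK2 z (by push Not; exact hz2)
    have hZ3 : (Z.erase z).card = 3 := by rw [card_erase_of_mem hz]; omega
    have only : ∀ p ∈ K, Nis src dst p → p = x := by
      intro p hp np
      by_contra hne
      exact sep3 hM hcl (by omega) hp np hxK nx hne (fun h => g1 (hKI h))
        (fun h => g1' (mem_of_mem_erase h)) m1 (fun h => g2 (hKI h))
        (fun h => g2' (mem_of_mem_erase h)) m2 g12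
    refine ⟨z, hz, fun c hcz => ?_⟩
    by_contra hnc
    have hna : ¬ ∃ e, Att src dst K c e := by
      rintro ⟨e, he⟩
      apply hnc
      have hcK : c ∉ K := fun h => disjoint_left.mp hd (hKI h) (mem_of_mem_erase hcz)
      rcases he with ⟨h3, h4⟩ | ⟨h3, h4⟩
      · have hne : src e ≠ dst e := fun h5 => hcK (by rw [← h4, ← h5]; exact h3)
        have h5 := only _ h3 ⟨e, hne, Or.inl rfl⟩
        exact ⟨e, Or.inl ⟨h5, h4⟩⟩
      · have hne : src e ≠ dst e := fun h5 => hcK (by rw [← h4, h5]; exact h3)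
        have h5 := only _ h3 ⟨e, hne, Or.inr rfl⟩
        exact ⟨e, Or.inr ⟨h4, h5⟩⟩
    have hcl2 : Closed src dst ((Z.erase z).erase c) K := by
      intro e he
      have h3 := hcl e he
      have h4 : ¬ Att src dst K c e := fun h => hna ⟨e, h⟩
      unfold Att at h4
      rw [mem_union, mem_union] at h3 ⊢
      rw [mem_erase (a := src e), mem_erase (a := dst e)]
      refine ⟨?_, ?_⟩
      · rcases h3.1 with h5 | h5
        · exact Or.inl h5
        · by_cases h6 : src e ∈ K
          · exact Or.inl h6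
          · refine Or.inr ⟨fun h7 => h4 (Or.inr ⟨by tauto, h7⟩), h5⟩
      · rcases h3.2 with h5 | h5
        · exact Or.inl h5
        · by_cases h6 : dst e ∈ K
          · exact Or.inl h6
          · refine Or.inr ⟨fun h7 => h4 (Or.inl ⟨by tauto, h7⟩), h5⟩
    refine sep2 hM hcl2 (by rw [card_erase_of_mem hcz]; omega) hxK nx (fun h => g1 (hKI h))
      (fun h => g1' (mem_of_mem_erase (mem_of_mem_erase h))) m1
  obtain ⟨z1, hz1, k1⟩ := key x1 h1 n1
  obtain ⟨z2, hz2, k2⟩ := key x2 h2 n2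
  have hcard : 2 ≤ ((Z.erase z1).erase z2).card := by
    have e1 : (Z.erase z1).card = 3 := by rw [card_erase_of_mem hz1]; omega
    have e2 := pred_card_le_card_erase (s := Z.erase z1) (a := z2)
    omega
  obtain ⟨c, hcm, d, hdm, hcd⟩ := one_lt_card.mp (show 1 < ((Z.erase z1).erase z2).card by omega)
  have hc1 : c ∈ Z.erase z1 := mem_of_mem_erase hcm
  have hd1 : d ∈ Z.erase z1 := mem_of_mem_erase hdm
  have hc2 : c ∈ Z.erase z2 := mem_erase.mpr ⟨(mem_erase.mp hcm).1, mem_of_mem_erase hc1⟩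
  have hd2 : d ∈ Z.erase z2 := mem_erase.mpr ⟨(mem_erase.mp hdm).1, mem_of_mem_erase hd1⟩
  have hcI : ∀ p ∈ I, ∀ q ∈ Z, p ≠ q := fun p hp q hq h => disjoint_left.mp hd hp (h ▸ hq)
  have hsym : ∀ a b : V, (∃ e, JV src dst e a b) → ∃ e, JV src dst e b a := by
    rintro a b ⟨e, he | he⟩
    · exact ⟨e, Or.inr ⟨he.1, he.2⟩⟩
    · exact ⟨e, Or.inl ⟨he.1, he.2⟩⟩
  exact Pool.Agent.TH169.P5.quad V E src dst hM x1 c x2 d (hcI _ h1 _ (mem_of_mem_erase hc1)) h12
    (hcI _ h1 _ (mem_of_mem_erase hd1)) (hcI _ h2 _ (mem_of_mem_erase hc2)).symm hcd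
    (hcI _ h2 _ (mem_of_mem_erase hd2)) (k1 c hc1) (hsym _ _ (k2 c hc2)) (k2 d hd2)
    (hsym _ _ (k1 d hd1))

/-- a vertex of the cut with at least two edges on both sides -/
theorem heavy (hM : MinCx src dst) {Z I : Finset V} (hc : Closed src dst Z I)
    (hd : Disjoint I Z) (hZ : Z.card = 4) {x1 x2 y1 y2 : V} (h1 : x1 ∈ I) (h2 : x2 ∈ I)
    (h12 : x1 ≠ x2) (n1 : Nis src dst x1) (n2 : Nis src dst x2) (g1 : y1 ∉ I) (g1' : y1 ∉ Z)
    (g2 : y2 ∉ I) (g2' : y2 ∉ Z) (g12 : y1 ≠ y2) (m1 : Nis src dst y1) (m2 : Nis src dst y2)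
    {l : V} (hl : l ∈ Z) {G : Finset E} (hG : ∀ e ∈ G, src e ∈ Z ∧ dst e ∈ Z)
    (a1 : 2 ≤ (crs src dst {l} ∩ (tch src dst I ∪ G)).card)
    (a2 : 2 ≤ (crs src dst {l} ∩ (tch src dst I ∪ G)ᶜ).card) : False := by
  obtain ⟨K1, hK1, cK1, at1⟩ := big_comp hM hc hd hZ h1 h2 h12 n1 n2 g1 g1' g2 g2' g12 m1 m2
  have hO : ∀ p, p ∈ (I ∪ Z)ᶜ ↔ p ∉ I ∧ p ∉ Z := by
    intro p; rw [mem_compl, mem_union, not_or]
  have hdO : Disjoint (I ∪ Z)ᶜ Z := disjoint_left.mpr fun p hp => ((hO p).mp hp).2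
  obtain ⟨K2, hK2, cK2, at2⟩ := big_comp hM hc.out hdO hZ ((hO y1).mpr ⟨g1, g1'⟩)
    ((hO y2).mpr ⟨g2, g2'⟩) g12 m1 m2 (y1 := x1) (y2 := x2) (fun h => ((hO _).mp h).1 h1)
    (disjoint_left.mp hd h1) (fun h => ((hO _).mp h).1 h2) (disjoint_left.mp hd h2) h12 n1 n2
  have hnt : ∀ e, (src e ∈ (I ∪ Z)ᶜ ∨ dst e ∈ (I ∪ Z)ᶜ) → e ∉ tch src dst I := fun e he =>
    hc.nin he
  have hnG : ∀ e, (src e ∈ (I ∪ Z)ᶜ ∨ dst e ∈ (I ∪ Z)ᶜ) → e ∉ G := by
    intro e he hG'
    have := hG e hG'
    rw [hO, hO] at he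
    tauto
  have hZe : ∀ z ∈ Z.erase l, z ∈ Z := fun z hz => mem_of_mem_erase hz
  refine claw hM (Z := Z.erase l) (K1 := K1) (K2 := K2) (A := tch src dst I ∪ G)
    (by rw [card_erase_of_mem hl]; omega) (by rw [card_erase_of_mem hl]; omega) cK1 cK2
    (fun z hz h => disjoint_left.mp hd (hK1 h) (hZe z hz))
    (fun z hz h => ((hO z).mp (hK2 h)).2 (hZe z hz))
    (fun e he => mem_union_left _ (mem_tch.mpr (by
      rcases he with he | he
      · exact Or.inl (hK1 he)
      · exact Or.inr (hK1 he))))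
    (fun e he => ?_) (fun z hz => at1 z (hZe z hz)) (fun z hz => at2 z (hZe z hz)) ?_ ?_ ?_ ?_
  · have he' : src e ∈ (I ∪ Z)ᶜ ∨ dst e ∈ (I ∪ Z)ᶜ := by
      rcases he with he | he
      · exact Or.inl (hK2 he)
      · exact Or.inr (hK2 he)
    rw [mem_union, not_or]
    exact ⟨hnt e he', hnG e he'⟩
  · exact nobr hM hc hd hl subset_union_left (fun e he => by
      rcases mem_union.mp he with h | h
      · exact Or.inl h
      · exact Or.inr (hG e h)) a1 g1 g1' m1
  · refine nobr hM hc.out hdO hl (fun e he => ?_) (fun e he => ?_) a2 (y := x1)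
      (fun h => ((hO _).mp h).1 h1) (disjoint_left.mp hd h1) n1
    · rw [mem_compl, mem_union, not_or]
      have he' := mem_tch.mp he
      exact ⟨hnt e he', hnG e he'⟩
    · rw [mem_compl, mem_union, not_or, mem_tch] at he
      by_cases h5 : e ∈ tch src dst (I ∪ Z)ᶜ
      · exact Or.inl h5
      · right
        rw [mem_tch, hO, hO] at h5
        tauto
  · intro en hen
    obtain ⟨e, he⟩ := at1 l hl
    refine ⟨e, mem_union_left _ (mem_tch.mpr ?_), ?_, ?_⟩
    · rcases he with ⟨h, _⟩ | ⟨h, _⟩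
      · exact Or.inl (hK1 h)
      · exact Or.inr (hK1 h)
    · intro h5
      rcases he with ⟨h, h6⟩ | ⟨h, h6⟩
      · exact disjoint_left.mp hd (hK1 h) (by rw [h5, h6]; exact hl)
      · exact disjoint_left.mp hd (hK1 h) (by rw [← h5, h6]; exact hl)
    · intro z hz h5
      have h6 := hen z hz
      rw [← h5] at h6
      have := he.inj h6 (fun h => disjoint_left.mp hd (hK1 h) hl)
      exact (mem_erase.mp hz).1 this.symm
  · intro en hen
    obtain ⟨e, he⟩ := at2 l hl
    have he' : src e ∈ (I ∪ Z)ᶜ ∨ dst e ∈ (I ∪ Z)ᶜ := by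
      rcases he with ⟨h, _⟩ | ⟨h, _⟩
      · exact Or.inl (hK2 h)
      · exact Or.inr (hK2 h)
    refine ⟨e, ?_, ?_, ?_⟩
    · rw [mem_union, not_or]
      exact ⟨hnt e he', hnG e he'⟩
    · intro h5
      rcases he with ⟨h, h6⟩ | ⟨h, h6⟩
      · exact ((hO _).mp (hK2 h)).2 (by rw [h5, h6]; exact hl)
      · exact ((hO _).mp (hK2 h)).2 (by rw [← h5, h6]; exact hl)
    · intro z hz h5
      have h6 := hen z hz
      rw [← h5] at h6
      have := he.inj h6 (fun h => ((hO l).mp (hK2 h)).2 hl)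
      exact (mem_erase.mp hz).1 this.symm

/-- **Internal 5-connectivity.** In a minimal counterexample a vertex cut with at most four vertices
separates at most two vertices. -/
theorem sep4 (hM : MinCx src dst) {Z I : Finset V} (hc : Closed src dst Z I)
    (hd : Disjoint I Z) (hZ : Z.card ≤ 4) {x1 x2 x3 y1 y2 y3 : V} (h1 : x1 ∈ I) (h2 : x2 ∈ I)
    (h3 : x3 ∈ I) (h12 : x1 ≠ x2) (h13 : x1 ≠ x3) (h23 : x2 ≠ x3) (n1 : Nis src dst x1)
    (n2 : Nis src dst x2) (n3 : Nis src dst x3) (g1 : y1 ∉ I) (g1' : y1 ∉ Z)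
    (g2 : y2 ∉ I) (g2' : y2 ∉ Z) (g3 : y3 ∉ I) (g3' : y3 ∉ Z) (g12 : y1 ≠ y2) (g13 : y1 ≠ y3)
    (g23 : y2 ≠ y3) (m1 : Nis src dst y1) (m2 : Nis src dst y2) (m3 : Nis src dst y3) :
    False := by
  classical
  by_cases hZ3 : Z.card ≤ 3
  · exact sep3 hM hc hZ3 h1 n1 h2 n2 h12 g1 g1' m1 g2 g2' m2 g12
  have hZ4 : Z.card = 4 := by omega
  obtain ⟨K1, hK1, cK1, at1⟩ := big_comp hM hc hd hZ4 h1 h2 h12 n1 n2 g1 g1' g2 g2' g12 m1 m2
  have hO : ∀ p, p ∈ (I ∪ Z)ᶜ ↔ p ∉ I ∧ p ∉ Z := by
    intro p; rw [mem_compl, mem_union, not_or]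
  have hdO : Disjoint (I ∪ Z)ᶜ Z := disjoint_left.mpr fun p hp => ((hO p).mp hp).2
  obtain ⟨K2, hK2, cK2, at2⟩ := big_comp hM hc.out hdO hZ4 ((hO y1).mpr ⟨g1, g1'⟩)
    ((hO y2).mpr ⟨g2, g2'⟩) g12 m1 m2 (y1 := x1) (y2 := x2) (fun h => ((hO _).mp h).1 h1)
    (disjoint_left.mp hd h1) (fun h => ((hO _).mp h).1 h2) (disjoint_left.mp hd h2) h12 n1 n2
  have hv := fun (l : V) (hl : l ∈ Z) (G : Finset E) (hG : ∀ e ∈ G, src e ∈ Z ∧ dst e ∈ Z) =>
    heavy hM hc hd hZ4 h1 h2 h12 n1 n2 g1 g1' g2 g2' g12 m1 m2 hl hG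
  -- the three kinds of edges at `l`
  let R : V → Finset E := fun l => crs src dst {l} \ (tch src dst I ∪ tch src dst (I ∪ Z)ᶜ)
  have hR : ∀ l, ∀ e ∈ R l, src e ∈ Z ∧ dst e ∈ Z := by
    intro l e he
    rw [mem_sdiff, mem_union, mem_tch, mem_tch, hO, hO] at he
    tauto
  have hdis : ∀ e, e ∈ tch src dst I → e ∉ tch src dst (I ∪ Z)ᶜ := by
    intro e he he2
    exact hc.nin (mem_tch.mp he2) he
  have hdeg : ∀ l ∈ Z, (crs src dst {l} ∩ tch src dst I).card +
      (crs src dst {l} ∩ tch src dst (I ∪ Z)ᶜ).card + (R l).card = (crs src dst {l}).card ∧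
      3 ≤ (crs src dst {l}).card ∧ 1 ≤ (crs src dst {l} ∩ tch src dst I).card ∧
      1 ≤ (crs src dst {l} ∩ tch src dst (I ∪ Z)ᶜ).card := by
    intro l hl
    refine ⟨?_, ?_, ?_, ?_⟩
    · have e1 := card_sdiff_add_card_inter (crs src dst {l})
        (tch src dst I ∪ tch src dst (I ∪ Z)ᶜ)
      rw [inter_union_distrib_left, card_union_of_disjoint] at e1
      · change _ + _ + (crs src dst {l} \ (tch src dst I ∪ tch src dst (I ∪ Z)ᶜ)).card = _
        omega
      · rw [disjoint_left]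
        intro e he he2
        exact hdis e (mem_inter.mp he).2 (mem_inter.mp he2).2
    · obtain ⟨e, he⟩ := at1 l hl
      have hlI : l ∉ I := fun h => disjoint_left.mp hd h hl
      have hne : src e ≠ dst e := by
        intro h5
        rcases he with ⟨h, h6⟩ | ⟨h, h6⟩
        · exact hlI (by rw [← h6, ← h5]; exact hK1 h)
        · exact hlI (by rw [← h6, h5]; exact hK1 h)
      have nl : Nis src dst l := ⟨e, hne, by
        rcases he with ⟨_, h⟩ | ⟨_, h⟩
        · exact Or.inr h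
        · exact Or.inl h⟩
      exact cut3 hM (mem_singleton_self l) (y := x1)
        (by rw [mem_singleton]; rintro rfl; exact hlI h1) nl n1
    · obtain ⟨e, he⟩ := at1 l hl
      have hlI : l ∉ I := fun h => disjoint_left.mp hd h hl
      refine card_pos.mpr ⟨e, mem_inter.mpr ⟨?_, ?_⟩⟩
      · rw [mem_crs, mem_singleton, mem_singleton]
        rcases he with ⟨h, h6⟩ | ⟨h, h6⟩
        · have : src e ≠ l := fun h7 => hlI (h7 ▸ hK1 h)
          tauto
        · have : dst e ≠ l := fun h7 => hlI (h7 ▸ hK1 h)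
          tauto
      · rw [mem_tch]
        rcases he with ⟨h, _⟩ | ⟨h, _⟩
        · exact Or.inl (hK1 h)
        · exact Or.inr (hK1 h)
    · obtain ⟨e, he⟩ := at2 l hl
      have hlI : l ∉ (I ∪ Z)ᶜ := fun h => ((hO l).mp h).2 hl
      refine card_pos.mpr ⟨e, mem_inter.mpr ⟨?_, ?_⟩⟩
      · rw [mem_crs, mem_singleton, mem_singleton]
        rcases he with ⟨h, h6⟩ | ⟨h, h6⟩
        · have : src e ≠ l := fun h7 => hlI (h7 ▸ hK2 h)
          tauto
        · have : dst e ≠ l := fun h7 => hlI (h7 ▸ hK2 h)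
          tauto
      · rw [mem_tch]
        rcases he with ⟨h, _⟩ | ⟨h, _⟩
        · exact Or.inl (hK2 h)
        · exact Or.inr (hK2 h)
  -- a subset `G` of the edges in the cut is moved to the inner side
  have hmove : ∀ l ∈ Z, ∀ G ⊆ R l, 2 ≤ (crs src dst {l} ∩ tch src dst I).card + G.card →
      2 ≤ (crs src dst {l} ∩ tch src dst (I ∪ Z)ᶜ).card + ((R l).card - G.card) → False := by
    intro l hl G hG b1 b2
    refine hv l hl G (fun e he => hR l e (hG he)) ?_ ?_
    · have e1 : crs src dst {l} ∩ (tch src dst I ∪ G) = (crs src dst {l} ∩ tch src dst I) ∪ G := by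
        rw [inter_union_distrib_left]
        congr 1
        refine inter_eq_right.mpr fun e he => ?_
        exact (mem_sdiff.mp (hG he)).1
      rw [e1, card_union_of_disjoint]
      · exact b1
      · rw [disjoint_left]
        intro e he he2
        have := (mem_sdiff.mp (hG he2)).2
        rw [mem_union, not_or] at this
        exact this.1 (mem_inter.mp he).2
    · have e1 : (crs src dst {l} ∩ tch src dst (I ∪ Z)ᶜ) ∪ (R l \ G) ⊆
          crs src dst {l} ∩ (tch src dst I ∪ G)ᶜ := by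
        intro e he
        rw [mem_inter, mem_compl, mem_union, not_or]
        rcases mem_union.mp he with h | h
        · refine ⟨(mem_inter.mp h).1, fun h5 => hdis e h5 (mem_inter.mp h).2, fun h5 => ?_⟩
          have := (mem_sdiff.mp (hG h5)).2
          rw [mem_union, not_or] at this
          exact this.2 (mem_inter.mp h).2
        · obtain ⟨h5, h6⟩ := mem_sdiff.mp h
          obtain ⟨h7, h8⟩ := mem_sdiff.mp h5
          rw [mem_union, not_or] at h8
          exact ⟨h7, h8.1, h6⟩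
      refine le_trans ?_ (card_le_card e1)
      rw [card_union_of_disjoint, card_sdiff_of_subset hG]
      · exact b2
      · rw [disjoint_left]
        intro e he he2
        have := (mem_sdiff.mp (mem_sdiff.mp he2).1).2
        rw [mem_union, not_or] at this
        exact this.2 (mem_inter.mp he).2
  have thin : ∀ l ∈ Z, ((crs src dst {l} ∩ tch src dst I).card = 1) ∨
      ((crs src dst {l} ∩ tch src dst (I ∪ Z)ᶜ).card = 1 ∧ (R l).card = 0) := by
    intro l hl
    obtain ⟨d1, d2, d3, d4⟩ := hdeg l hl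
    by_contra hno
    rw [not_or] at hno
    have hG0 := hmove l hl ∅ (empty_subset _)
    rw [card_empty] at hG0
    by_cases h5 : (crs src dst {l} ∩ tch src dst (I ∪ Z)ᶜ).card = 1
    · have h6 : (R l).card ≠ 0 := fun h7 => hno.2 ⟨h5, h7⟩
      exact hG0 (by omega) (by omega)
    · exact hG0 (by omega) (by omega)
  -- the edge cut
  let S : Finset V := I ∪ Z.filter (fun l => (crs src dst {l} ∩ tch src dst I).card ≠ 1)
  let B : V → Finset E := fun l => if (crs src dst {l} ∩ tch src dst I).card = 1 then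
    crs src dst {l} ∩ tch src dst I else crs src dst {l} ∩ tch src dst (I ∪ Z)ᶜ
  have hB : ∀ l ∈ Z, (B l).card = 1 := by
    intro l hl
    change (if (crs src dst {l} ∩ tch src dst I).card = 1 then
      crs src dst {l} ∩ tch src dst I else crs src dst {l} ∩ tch src dst (I ∪ Z)ᶜ).card = 1
    split_ifs with h5
    · exact h5
    · rcases thin l hl with h6 | h6
      · exact absurd h6 h5
      · exact h6.1
  have mS : ∀ p, p ∈ S ↔ p ∈ I ∨ (p ∈ Z ∧ (crs src dst {p} ∩ tch src dst I).card ≠ 1) := by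
    intro p
    change p ∈ I ∪ Z.filter (fun l => (crs src dst {l} ∩ tch src dst I).card ≠ 1) ↔ _
    rw [mem_union, mem_filter]
  have hone : ∀ e p q, JV src dst e p q → p ∈ S → q ∉ S → e ∈ Z.biUnion B := by
    intro e p q he hp hq
    rw [mem_biUnion]
    have hpq : p ≠ q := fun h => hq (h ▸ hp)
    have hcp : e ∈ crs src dst {p} := by
      rw [mem_crs, mem_singleton, mem_singleton]
      rcases he with ⟨h5, h6⟩ | ⟨h5, h6⟩
      · rw [h5, h6]; simp [hpq.symm]
      · rw [h5, h6]; simp [hpq.symm]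
    have hcq : e ∈ crs src dst {q} := by
      rw [mem_crs, mem_singleton, mem_singleton]
      rcases he with ⟨h5, h6⟩ | ⟨h5, h6⟩
      · rw [h5, h6]; simp [hpq]
      · rw [h5, h6]; simp [hpq]
    have hends : ∀ W : Finset V, e ∈ tch src dst W ↔ p ∈ W ∨ q ∈ W := by
      intro W
      rw [mem_tch]
      rcases he with ⟨h5, h6⟩ | ⟨h5, h6⟩
      · rw [h5, h6]
      · rw [h5, h6]; tauto
    rw [mS] at hp hq
    rw [not_or, not_and, not_not] at hq
    rcases hp with hp | ⟨hp, hp2⟩
    · have h5 : q ∈ Z := by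
        have h6 := hc e (mem_tch.mp ((hends I).mpr (Or.inl hp)))
        rw [mem_union, mem_union] at h6
        rcases he with ⟨h7, h8⟩ | ⟨h7, h8⟩
        · rw [h8] at h6; tauto
        · rw [h7] at h6; tauto
      refine ⟨q, h5, ?_⟩
      change e ∈ if (crs src dst {q} ∩ tch src dst I).card = 1 then
        crs src dst {q} ∩ tch src dst I else crs src dst {q} ∩ tch src dst (I ∪ Z)ᶜ
      rw [if_pos (hq.2 h5)]
      exact mem_inter.mpr ⟨hcq, (hends I).mpr (Or.inl hp)⟩
    · refine ⟨p, hp, ?_⟩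
      change e ∈ if (crs src dst {p} ∩ tch src dst I).card = 1 then
        crs src dst {p} ∩ tch src dst I else crs src dst {p} ∩ tch src dst (I ∪ Z)ᶜ
      rw [if_neg hp2]
      refine mem_inter.mpr ⟨hcp, ?_⟩
      by_contra hno
      rcases thin p hp with h6 | ⟨_, h6⟩
      · exact hp2 h6
      · have h7 : e ∈ R p := by
          refine mem_sdiff.mpr ⟨hcp, ?_⟩
          rw [mem_union, not_or]
          refine ⟨fun h8 => ?_, hno⟩
          rcases (hends I).mp h8 with h9 | h9
          · exact disjoint_left.mp hd h9 hp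
          · exact hq.1 h9
        rw [card_eq_zero] at h6
        rw [h6] at h7
        exact absurd h7 (notMem_empty _)
  have hsub : crs src dst S ⊆ Z.biUnion B := by
    intro e he
    rw [mem_crs] at he
    by_cases h5 : src e ∈ S
    · exact hone e _ _ (Or.inl ⟨rfl, rfl⟩) h5 (by tauto)
    · exact hone e (dst e) (src e) (Or.inr ⟨rfl, rfl⟩) (by tauto) h5
  have hle : (crs src dst S).card ≤ 4 := by
    refine (card_le_card hsub).trans ?_
    refine card_biUnion_le.trans ?_
    rw [sum_congr rfl hB, sum_const, smul_eq_mul, hZ4]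
  have out : ∀ y, y ∉ I → y ∉ Z → y ∉ S := by
    intro y a b
    rw [mS]; tauto
  have := cut5 hM (S := S) ((mS x1).mpr (Or.inl h1)) ((mS x2).mpr (Or.inl h2))
    ((mS x3).mpr (Or.inl h3)) h12 h13 h23 n1 n2 n3 (out y1 g1 g1') (out y2 g2 g2')
    (out y3 g3 g3') g12 g13 g23 m1 m2 m3
  omega

end Pool.Agent.N399.TB
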